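import Pool.Agent.Helper60.KS.St

/-! KC-17: greedy colouring of heights. -/

set_option autoImplicit false
open scoped Classical

namespace Pool.Agent.Helper46.KC

open Pool.Agent.Helper60.KS

theorem splitSpaced : SplitSpaced := by
  intro Z
  induction Z using Finset.induction_on with
  | empty =>
    intro M _
    exact ⟨fun _ => 0, by simp, fun i ρ hρ => by simp at hρ⟩
  | insert a Z ha ih =>
    intro M hM
    obtain ⟨col, hcol, hsp⟩ := ih M (fun t => by
      refine le_trans (Finset.card_le_card ?_) (hM t)
      exact Finset.filter_subset_filter _ (Finset.subset_insert a Z))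
    set C := Z.filter (fun ρ => |ρ.im - a.im| < 1) with hC
    have hC1 : C.card + 1 ≤ M := by
      have haC : a ∉ C := fun h => ha (Finset.mem_of_mem_filter a h)
      rw [← Finset.card_insert_of_notMem haC]
      refine le_trans (Finset.card_le_card ?_) (hM a.im)
      intro ρ hρ
      rw [Finset.mem_insert] at hρ
      rw [Finset.mem_filter, Finset.mem_insert]
      rcases hρ with h | h
      · subst h
        exact ⟨Or.inl rfl, by simp⟩
      · rw [hC, Finset.mem_filter] at h
        exact ⟨Or.inr h.1, h.2.le⟩
    have hlt : (C.image col).card < (Finset.range M).card := by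
      rw [Finset.card_range]
      exact lt_of_le_of_lt Finset.card_image_le (by omega)
    obtain ⟨i, hiM, hi⟩ := Finset.exists_mem_notMem_of_card_lt_card hlt
    rw [Finset.mem_range] at hiM
    refine ⟨Function.update col a i, ?_, ?_⟩
    · intro ρ hρ
      rw [Finset.mem_insert] at hρ
      by_cases h : ρ = a
      · rw [h, Function.update_self]; exact hiM
      · rw [Function.update_of_ne h]
        exact hcol ρ (hρ.resolve_left h)
    · have key : ∀ ρ ∈ Z, ρ ≠ a → col ρ = i → 1 ≤ |ρ.im - a.im| := by
        intro ρ hρ _ hc
        by_contra hcon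
        apply hi
        rw [Finset.mem_image]
        exact ⟨ρ, by rw [hC, Finset.mem_filter]; exact ⟨hρ, not_le.1 hcon⟩, hc⟩
      intro j ρ hρ ρ' hρ' hne
      rw [Finset.mem_filter, Finset.mem_insert] at hρ hρ'
      obtain ⟨h1, h2⟩ := hρ
      obtain ⟨h1', h2'⟩ := hρ'
      by_cases h : ρ = a
      · subst h
        rw [Function.update_self] at h2
        have h' : ρ' ≠ ρ := fun e => hne e.symm
        rw [Function.update_of_ne h'] at h2'
        rw [abs_sub_comm]
        exact key ρ' (h1'.resolve_left h') h' (h2'.trans h2.symm)
      · rw [Function.update_of_ne h] at h2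
        by_cases h' : ρ' = a
        · subst h'
          rw [Function.update_self] at h2'
          exact key ρ (h1.resolve_left h) h (h2.trans h2'.symm)
        · rw [Function.update_of_ne h'] at h2'
          exact hsp j ρ (Finset.mem_filter.2 ⟨h1.resolve_left h, h2⟩) ρ'
            (Finset.mem_filter.2 ⟨h1'.resolve_left h', h2'⟩) hne

end Pool.Agent.Helper46.KC
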